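import Mathlib
import Pool.Agent.H19.SLTwo

set_option autoImplicit false

namespace Pool.Agent.Results.MP_d2e4ca_al.Example

open Matrix PowerSeries Pool.Agent.H19.SLTwo
open scoped PowerSeries.WithPiTopology MatrixGroups commutatorElement

/-- Centralizers of non-trivial elements are abelian. -/
def IsCA (G : Type) [Group G] : Prop :=
  ∀ x : G, x ≠ 1 → ∀ y ∈ Subgroup.centralizer {x}, ∀ z ∈ Subgroup.centralizer {x}, y * z = z * y

/-- Every non-trivial element survives in a soluble quotient by an open normal subgroup; for a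
profinite group this is prosolubility. -/
def IsProsoluble (G : Type) [Group G] [TopologicalSpace G] : Prop :=
  ∀ x : G, x ≠ 1 → ∃ N : OpenNormalSubgroup G, x ∉ N ∧ Group.IsSolvable (G ⧸ N.toSubgroup)

variable {R : Type} [CommRing R]

def u (a : R) : SL(2, R) := ⟨!![1, a; 0, 1], by simp⟩
def l (a : R) : SL(2, R) := ⟨!![1, 0; a, 1], by simp⟩

lemma mem_der {w v c d : R} (h : w * v = 1) (hc : (w ^ 2 - 1) * c = 1) (hd : (v ^ 2 - 1) * d = 1)
    (n : ℕ) : ∀ a : R, u a ∈ derivedSeries SL(2, R) n ∧ l a ∈ derivedSeries SL(2, R) n := by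
  induction n with
  | zero => exact fun _ => ⟨trivial, trivial⟩
  | succ n ih =>
    let t : SL(2, R) := ⟨!![w, 0; 0, v], by simp [h]⟩
    have ht : t ∈ derivedSeries SL(2, R) n := by
      convert mul_mem (mul_mem (mul_mem (mul_mem (mul_mem (ih w).1 (ih (-v)).2) (ih w).1)
        (ih (-1)).1) (ih 1).2) (ih (-1)).1
      ext i j
      fin_cases i <;> fin_cases j <;> simp [t, u, l, h, mul_comm v w]
    rw [derivedSeries_succ]
    refine fun a => ⟨?_, ?_⟩
    · convert Subgroup.commutator_mem_commutator ht (ih (c * a)).1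
      rw [commutatorElement_def, _root_.eq_mul_inv_iff_mul_eq, _root_.eq_mul_inv_iff_mul_eq]
      ext i j
      fin_cases i <;> fin_cases j <;> simp [t, u]
      linear_combination -v * a * hc + w * c * a * h
    convert Subgroup.commutator_mem_commutator ht (ih (d * a)).2
    rw [commutatorElement_def, _root_.eq_mul_inv_iff_mul_eq, _root_.eq_mul_inv_iff_mul_eq]
    ext i j
    fin_cases i <;> fin_cases j <;> simp [t, l]
    linear_combination -w * a * hd + v * d * a * h

/-- For every finite field `F` of characteristic two with more than two elements there is an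
infinite profinite CA-group that is not prosoluble and has `SL(2, F)` as a quotient by an open
normal subgroup. -/
theorem result (F : Type) [Field F] [Finite F] [CharP F 2] (hF : 2 < Nat.card F) :
    ∃ G : ProfiniteGrp.{0}, Infinite G ∧ IsCA G ∧ ¬ IsProsoluble G ∧
      ∃ φ : G →* SL(2, F), Function.Surjective φ ∧ IsOpen (φ.ker : Set G) := by
  let _ : TopologicalSpace F := ⊥
  have : DiscreteTopology F := ⟨rfl⟩
  refine ⟨.of SL(2, F⟦X⟧), ?_, fun x hx y hy z hz => ca hx (hy x rfl) (hz x rfl), fun h => ?_,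
    SpecialLinearGroup.map constantCoeff, fun g => ⟨SpecialLinearGroup.map C g, ?_⟩, open_ker F⟩
  · exact .of_injective (fun n : ℕ => (u (X ^ n) : SL(2, F⟦X⟧))) fun m n h => by
      simpa [u] using congrArg (fun g : SL(2, F⟦X⟧) => order (g 0 1)) h
  · obtain ⟨N, h1, n, h2⟩ := h (u 1 : SL(2, F⟦X⟧)) fun h => by
      simpa [u] using congrArg (fun g : SL(2, F⟦X⟧) => g 0 1) h
    obtain ⟨w, h0, h3⟩ : ∃ w : F, w ≠ 0 ∧ w ≠ 1 := by
      by_contra! hc
      have := Nat.card_le_card_of_surjective (![0, 1] : Fin 2 → F) fun w => by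
        by_cases e : w = 0
        exacts [⟨0, e.symm⟩, ⟨1, (hc w e).symm⟩]
      simp at this
      omega
    have h4 (w : F) (h : w ≠ 1) : (C w ^ 2 - 1 : F⟦X⟧) * C (w ^ 2 - 1)⁻¹ = 1 := by
      rw [← map_pow, ← map_one C, ← map_sub, ← map_mul, mul_inv_cancel₀]
      rw [show w ^ 2 - 1 = (w - 1) ^ 2 by
        linear_combination (w - 1) * CharTwo.two_eq_zero (R := F)]
      exact pow_ne_zero _ (sub_ne_zero.mpr h)
    have h5 := map_derivedSeries_le_derivedSeries (QuotientGroup.mk' N.toSubgroup) n
      ⟨_, (mem_der (w := C w) (v := C w⁻¹) (by rw [← map_mul, mul_inv_cancel₀ h0, map_one])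
        (h4 w h3) (h4 _ (by simpa)) n 1).1, rfl⟩
    rw [h2, Subgroup.mem_bot] at h5
    exact h1 ((QuotientGroup.eq_one_iff _).mp h5)
  ext i j
  simp

end Pool.Agent.Results.MP_d2e4ca_al.Example
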